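import Pool.Agent.Q152.CC.Stm3

set_option autoImplicit false

/-!
# Project CC (helper152), job LBA: the ideals of norm `p²` (helper166)
-/

namespace Pool.Agent.Q166.CC

open Pool.Agent.Y692.QS Pool.Agent.Q152.CC

/-- a prime `p ≡ 2` modulo `3` is inert -/
theorem inert {p : ℕ} (hp : p.Prime) (h3 : p % 3 = 2) {x y : ℤ}
    (h : (p : ℤ) ∣ x ^ 2 - x * y + y ^ 2) : (p : ℤ) ∣ y := by
  have : Fact p.Prime := ⟨hp⟩
  rw [← ZMod.intCast_zmod_eq_zero_iff_dvd _ p] at h ⊢
  push_cast at h
  by_contra hy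
  set X : ZMod p := (x : ZMod p) with hX
  set Y : ZMod p := (y : ZMod p) with hY
  set t : ZMod p := -(X / Y) with ht
  have hXt : X = -(t * Y) := by
    rw [ht]
    field_simp
  have h1 : Y ^ 2 * (t ^ 2 + t + 1) = 0 := by
    rw [hXt] at h
    linear_combination h
  have h2 : t ^ 2 + t + 1 = 0 := by
    rcases mul_eq_zero.1 h1 with h2 | h2
    · exact absurd (pow_eq_zero_iff (two_ne_zero)|>.1 h2) hy
    · exact h2
  have h4 : t ^ 3 = 1 := by linear_combination (t - 1) * h2
  have ht0 : t ≠ 0 := by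
    intro h0
    rw [h0] at h4
    simp at h4
  have h5 : t ^ (p - 1) = 1 := ZMod.pow_card_sub_one_eq_one ht0
  have h6 : p - 1 = 3 * (p / 3) + 1 := by omega
  have h7 : t = 1 := by
    rw [h6, pow_succ, pow_mul, h4, one_pow, one_mul] at h5
    exact h5
  rw [h7] at h2
  have h8 : ((3 : ℕ) : ZMod p) = 0 := by
    push_cast
    linear_combination h2
  rw [ZMod.natCast_eq_zero_iff] at h8
  have h9 := Nat.le_of_dvd (by norm_num) h8
  interval_cases p
  · omega
  · omega
  · exact absurd h8 (by norm_num)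
  · omega

theorem inert_dvd {p : ℕ} (hp : p.Prime) (h3 : p % 3 = 2) {α : Ei}
    (h : (p : ℤ) ∣ nr α) : ((p : ℕ) : Ei) ∣ α := by
  have hi := inert hp h3 (x := α.re) (y := α.im) h
  have hr := inert hp h3 (x := α.im) (y := α.re) (by
    have : α.im ^ 2 - α.im * α.re + α.re ^ 2 = nr α := by
      unfold nr
      ring
    rw [this]
    exact h)
  have h1 : (((p : ℤ) : ℤ) : Ei) ∣ α := int_dvd.2 ⟨hr, hi⟩
  simpa using h1

/-- a product with imaginary part and norm divisible by `p` is divisible by `p` -/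
theorem of_im {p : ℕ} (hp : p.Prime) {γ : Ei} (h : (p : ℤ) ∣ γ.im) (hn : (p : ℤ) ∣ nr γ) :
    ((p : ℤ) : Ei) ∣ γ := by
  refine int_dvd.2 ⟨?_, h⟩
  have hpz : Prime (p : ℤ) := Nat.prime_iff_prime_int.1 hp
  have h1 : (p : ℤ) ∣ γ.re ^ 2 := by
    have h2 : γ.re ^ 2 = nr γ + γ.im * (γ.re - γ.im) := by
      unfold nr
      ring
    rw [h2]
    exact dvd_add hn (Dvd.dvd.mul_right h _)
  exact hpz.dvd_of_dvd_pow h1

/-- a prime of norm `p` or its conjugate divides every element of norm divisible by `p` -/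
theorem split {p : ℕ} (hp : p.Prime) {π : Ei} (hπ : nr π = p) {β : Ei}
    (h : (p : ℤ) ∣ nr β) : π ∣ β ∨ star π ∣ β := by
  have hpz : Prime (p : ℤ) := Nat.prime_iff_prime_int.1 hp
  have hp0 : (p : ℤ) ≠ 0 := hpz.ne_zero
  have hπ0 : π ≠ 0 := by
    intro h0
    rw [h0] at hπ
    exact hp0 (hπ.symm.trans (by decide))
  have hs0 : star π ≠ 0 := by
    intro h0
    have h1 : nr (star π) = p := by rw [nr_star, hπ]
    rw [h0] at h1
    exact hp0 (h1.symm.trans (by decide))
  have key : (p : ℤ) ∣ (β * star π).im * (β * π).im := by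
    have h1 : (β * star π).im * (β * π).im = β.im ^ 2 * nr π - π.im ^ 2 * nr β := by
      rw [mul_im, mul_im, star_re, star_im]
      unfold nr
      ring
    rw [h1, hπ]
    exact dvd_sub (Dvd.intro_left _ rfl) (Dvd.dvd.mul_left h _)
  rcases hpz.dvd_or_dvd key with h1 | h1
  · left
    have h2 := of_im hp h1 (by
      rw [nr_mul]
      exact Dvd.dvd.mul_right h _)
    rw [← hπ, ← mul_star] at h2
    exact (mul_dvd_mul_iff_right hs0).1 h2
  · right
    have h2 := of_im hp h1 (by
      rw [nr_mul]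
      exact Dvd.dvd.mul_right h _)
    rw [← hπ, ← mul_star, mul_comm π (star π)] at h2
    exact (mul_dvd_mul_iff_right hπ0).1 h2

theorem lba (pix : S_PIX) : S_LBA := by
  intro p hp h3
  have hp3 : p % 3 ≠ 0 := by
    intro h0
    exact h3 ((Nat.prime_dvd_prime_iff_eq Nat.prime_three hp).1 (Nat.dvd_of_mod_eq_zero h0)).symm
  have hpz : Prime (p : ℤ) := Nat.prime_iff_prime_int.1 hp
  have hnp : nr ((p : ℕ) : Ei) = (p : ℤ) ^ 2 := nr_nat p
  rcases (show p % 3 = 2 ∨ p % 3 = 1 by omega) with h | h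
  · exact ⟨p, p, p, hnp, hnp, hnp, fun α hα =>
      Or.inl (inert_dvd hp h ((dvd_pow_self (p : ℤ) two_ne_zero).trans hα))⟩
  · obtain ⟨π, hπ⟩ := pix p hp h
    have hps : ((p : ℕ) : Ei) = π * star π := by
      rw [mul_star, hπ]
      simp
    refine ⟨p, π ^ 2, star π ^ 2, hnp, ?_, ?_, fun α hα => ?_⟩
    · rw [pow_two, nr_mul, hπ]
      ring
    · rw [pow_two, nr_mul, nr_star, hπ]
      ring
    · have h1 : ∀ β : Ei, ∀ ρ : Ei, nr ρ = p → α = ρ * β → (p : ℤ) ∣ nr β := by
        intro β ρ hρ hβ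
        rw [hβ, nr_mul, hρ, pow_two] at hα
        exact (mul_dvd_mul_iff_left hpz.ne_zero).1 hα
      rcases split hp hπ ((dvd_pow_self (p : ℤ) two_ne_zero).trans hα) with ⟨β, hβ⟩ | ⟨β, hβ⟩
      · rcases split hp hπ (h1 β π hπ hβ) with h2 | h2
        · right
          left
          rw [hβ, pow_two]
          exact mul_dvd_mul_left _ h2
        · left
          rw [hβ, hps]
          exact mul_dvd_mul_left _ h2
      · rcases split hp hπ (h1 β (star π) (by rw [nr_star, hπ]) hβ) with h2 | h2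
        · left
          rw [hβ, hps, mul_comm π (star π)]
          exact mul_dvd_mul_left _ h2
        · right
          right
          rw [hβ, pow_two]
          exact mul_dvd_mul_left _ h2

end Pool.Agent.Q166.CC
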